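import Mathlib
import Pool.Agent.V8H58.BF.FinalQ

/-!
# Unbounded taming forms with a bounded primitive, in a prescribed class

`X` is a closed manifold with a continuous almost complex structure `J` and `K` is a closed subset
whose `(d-1)`-dimensional Hausdorff measure is zero, near which the modulus of continuity of `J` is
better than Hölder continuity of exponent one half (for instance `J` is Lipschitz there). `σ₀` is a
smooth closed two-form on `X` and `β` is a one-form, smooth off `K` and bounded, such that
`σ = σ₀ + dβ` is weakly taming off `K`. The form `σ` is not assumed to be bounded: near `K` its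
values are only assumed to be controlled by its values on the pairs `(v, J v)`, as is the case if
`σ` is the sum of a `J`-invariant form and of a bounded form. If the components of the set of
points near which `σ` is not uniformly taming off `K` are small, then the class of `σ₀` contains a
symplectic form taming `J`, homotopic through nondegenerate forms to every form taming `J`.
-/

set_option autoImplicit false

open Set MeasureTheory
open scoped Manifold ContDiff

namespace Pool.Agent.Results.MP_bf98aa_gt.BoundedPrimitive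

open Pool.Agent.Y501.SYP Pool.Agent.V8H58.BF

theorem result (d : ℕ) (hd : 1 ≤ d) (X : Type) [TopologicalSpace X] [ChartedSpace (ES d) X]
    [IsManifold 𝓘(ℝ, ES d) ∞ X] [CompactSpace X] [T2Space X]
    (J : End (ES d) X) (hJ : IsAlmostComplex J) (K : Set X) (hK : IsClosed K)
    (hHol : ∀ x ∈ K, HalfHolderNear J x)
    (hH : ∀ x₀ : X, μH[(d : ℝ) - 1] (chartAt (ES d) x₀ '' (K ∩ (chartAt (ES d) x₀).source)) = 0)
    (σ₀ : Form (ES d) X 2) (hσ₀ : IsSmooth σ₀) (hσ₀c : IsClosedForm σ₀)
    (β : Form (ES d) X 1) (σ : Form (ES d) X 2) (hβ : SmoothOff β K) (hσ : SmoothOff σ K)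
    (hβσ : EqPlusD σ σ₀ β K) (hb : ∀ x ∈ K, BddNearK β K x)
    (hpos : ∀ x, x ∉ K → ∀ v : TangentSpace 𝓘(ℝ, ES d) x, 0 ≤ qd σ J x v)
    (hqc : ∀ x ∈ K, QuasiNear σ J K x)
    (hsmall : ∀ z ∈ Crit σ J K, SmallAll J (connectedComponentIn (Crit σ J K) z) z) :
    ∃ (α : Form (ES d) X 1) (ρ : Form (ES d) X 2), IsSmooth α ∧ IsSmooth ρ ∧ IsD α ρ ∧
      IsTamingSymplectic (addF σ₀ ρ) J ∧ ∀ τ : Form (ES d) X 2, (∀ x, TamesAt τ J x) →
        ∀ t : ℝ, 0 ≤ t → t ≤ 1 → NondegForm (segment τ (addF σ₀ ρ) t) :=
  unboundedClass hd J hJ K hK hHol hH σ₀ hσ₀ hσ₀c β σ hβ hσ hβσ hb hpos hqc hsmall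

end Pool.Agent.Results.MP_bf98aa_gt.BoundedPrimitive
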