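import Mathlib
import Pool.Agent.V8H58.BF.FinalF

/-!
# Gluing taming forms along a closed set, in a prescribed class: positive jumps and poles

`X` is a closed manifold, `J` is a continuous almost complex structure tamed by `τ`, and `F` is an
arbitrary closed subset of `X`, for instance a domain `{h ≤ 0}`, a hypersurface, a submanifold or a
finite set. `σ₀` is a smooth closed two-form which is weakly taming at the points of `F`, and `β` is
a one-form, smooth off `F`, such that `σ = σ₀ + dβ` is weakly taming off `F`. Neither `β` nor `σ`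
has to be bounded near `F`, and `β` has to match nothing at `F`. Suppose that some function `u`,
smooth off `F`, tends to `-∞` at `F` and satisfies `(du ∧ β)(v, J v) ≥ - C τ(v, J v)` near `F`. If
the components of the exceptional set are small, then the class of `σ₀` contains a symplectic form
taming `J`, homotopic through nondegenerate forms to every form taming `J`.

With `F = {h ≤ 0}` and `u = log h` this glues the primitives `0` on `{h ≤ 0}` and `β` on `{h ≥ 0}`,
provided that the singular part `dh ∧ β` of the jump is weakly taming up to an error of order `h`.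
-/

set_option autoImplicit false

open Set Filter Topology MeasureTheory
open scoped Manifold ContDiff

namespace Pool.Agent.Results.MP_bf98aa_gt.PolarGluing

open Pool.Agent.Y501.SYP Pool.Agent.V8H58.BF

theorem result (d : ℕ) (hd : 1 ≤ d) (X : Type) [TopologicalSpace X] [ChartedSpace (ES d) X]
    [IsManifold 𝓘(ℝ, ES d) ∞ X] [CompactSpace X] [T2Space X]
    (J : End (ES d) X) (hJ : IsAlmostComplex J)
    (τ : Form (ES d) X 2) (hτs : IsSmooth τ) (hτ : ∀ x, TamesAt τ J x)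
    (F : Set X) (hF : IsClosed F)
    (σ₀ : Form (ES d) X 2) (hσ₀ : IsSmooth σ₀) (hσ₀c : IsClosedForm σ₀)
    (β : Form (ES d) X 1) (σ : Form (ES d) X 2) (hβ : SmoothOff β F) (hσ : SmoothOff σ F)
    (hβσ : EqPlusD σ σ₀ β F)
    (hpos₀ : ∀ x ∈ F, ∀ v : TangentSpace 𝓘(ℝ, ES d) x, 0 ≤ qd σ₀ J x v)
    (hpos : ∀ x, x ∉ F → ∀ v : TangentSpace 𝓘(ℝ, ES d) x, 0 ≤ qd σ J x v)
    (u : X → ℝ) (hu : ContMDiffOn 𝓘(ℝ, ES d) 𝓘(ℝ, ℝ) ∞ u Fᶜ)
    (hlim : ∀ x ∈ F, ∀ B : ℝ, ∀ᶠ y in 𝓝 x, y ∉ F → u y < B) (C : ℝ)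
    (hwedge : ∀ x ∈ F, ∀ᶠ y in 𝓝 x, y ∉ F → ∀ v : TangentSpace 𝓘(ℝ, ES d) y,
      -(C * qd τ J y v) ≤ wedgeJ u β J y v)
    (hsmall : ∀ z ∈ Exc2 σ₀ σ τ J F,
      SmallAll J (connectedComponentIn (Exc2 σ₀ σ τ J F) z) z) :
    ∃ (α : Form (ES d) X 1) (ρ : Form (ES d) X 2), IsSmooth α ∧ IsSmooth ρ ∧ IsD α ρ ∧
      IsTamingSymplectic (addF σ₀ ρ) J ∧ ∀ τ' : Form (ES d) X 2, (∀ x, TamesAt τ' J x) →
        ∀ t : ℝ, 0 ≤ t → t ≤ 1 → NondegForm (segment τ' (addF σ₀ ρ) t) :=
  polarClass hd J hJ τ hτs hτ F hF σ₀ hσ₀ hσ₀c β σ hβ hσ hβσ hpos₀ hpos u hu hlim C hwedge hsmall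

end Pool.Agent.Results.MP_bf98aa_gt.PolarGluing
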