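import Mathlib
import Pool.Agent.V8H58.BF.FinalR

/-!
# Gluing weakly taming forms over an open cover, in a prescribed class

`X` is a closed manifold covered by finitely many open sets, the complements of the closed sets
`F i`, and `J` is a continuous almost complex structure tamed by `τ`. `σ₀` is any smooth closed
two-form. Over the complement of `F i` there is a one-form `β i` for which `σ i = σ₀ + d (β i)` is
weakly taming, and a smooth function `u i` tending to `-∞` at `F i`. Nothing is assumed on the size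
of `β i` and `σ i` near `F i`, and the forms `β i`, `σ i` need not match on the overlaps: it is only
required that `(d(u i - u j) ∧ (β i - β j))(v, J v) ≥ - C τ(v, J v)` there. If the set of the points
at which all the forms `σ i` vanish on a common `J`-line has small components, then the class of
`σ₀` contains a symplectic form taming `J`, homotopic through nondegenerate forms to every form
taming `J`.

For `β i = - d (u i) ∘ J` the condition on the overlaps holds with `C = 0`.
-/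

set_option autoImplicit false

open Set Filter Topology MeasureTheory
open scoped Manifold ContDiff

namespace Pool.Agent.Results.MP_bf98aa_gt.RegularizedMaximum

open Pool.Agent.Y501.SYP Pool.Agent.V8H58.BF

theorem result (d : ℕ) (hd : 1 ≤ d) (X : Type) [TopologicalSpace X] [ChartedSpace (ES d) X]
    [IsManifold 𝓘(ℝ, ES d) ∞ X] [CompactSpace X] [T2Space X]
    (J : End (ES d) X) (hJ : IsAlmostComplex J)
    (τ : Form (ES d) X 2) (hτs : IsSmooth τ) (hτ : ∀ x, TamesAt τ J x)
    (m : ℕ) (F : Fin m → Set X) (hF : ∀ i, IsClosed (F i)) (hFe : ⋂ i, F i = ∅)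
    (σ₀ : Form (ES d) X 2) (hσ₀ : IsSmooth σ₀) (hσ₀c : IsClosedForm σ₀)
    (β : Fin m → Form (ES d) X 1) (σ : Fin m → Form (ES d) X 2)
    (hβ : ∀ i, SmoothOff (β i) (F i)) (hσ : ∀ i, SmoothOff (σ i) (F i))
    (hβσ : ∀ i, EqPlusD (σ i) σ₀ (β i) (F i))
    (hpos : ∀ i x, x ∉ F i → ∀ v : TangentSpace 𝓘(ℝ, ES d) x, 0 ≤ qd (σ i) J x v)
    (u : Fin m → X → ℝ) (hu : ∀ i, ContMDiffOn 𝓘(ℝ, ES d) 𝓘(ℝ, ℝ) ∞ (u i) (F i)ᶜ)
    (hlim : ∀ i, ∀ x ∈ F i, ∀ B : ℝ, ∀ᶠ y in 𝓝 x, y ∉ F i → u i y < B) (C : ℝ)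
    (hwedge : ∀ i j, i < j → ∀ x, x ∉ F i → x ∉ F j → ∀ v : TangentSpace 𝓘(ℝ, ES d) x,
      -(C * qd τ J x v) ≤ wedgeDiff (u i) (u j) (β i) (β j) J x v)
    (hsmall : ∀ z ∈ CommonNull σ J F,
      SmallAll J (connectedComponentIn (CommonNull σ J F) z) z) :
    ∃ (α : Form (ES d) X 1) (ρ : Form (ES d) X 2), IsSmooth α ∧ IsSmooth ρ ∧ IsD α ρ ∧
      IsTamingSymplectic (addF σ₀ ρ) J ∧ ∀ τ' : Form (ES d) X 2, (∀ x, TamesAt τ' J x) →
        ∀ t : ℝ, 0 ≤ t → t ≤ 1 → NondegForm (segment τ' (addF σ₀ ρ) t) :=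
  maxClass hd J hJ τ hτs hτ m F hF hFe σ₀ hσ₀ hσ₀c β σ hβ hσ hβσ hpos u hu hlim C hwedge hsmall

end Pool.Agent.Results.MP_bf98aa_gt.RegularizedMaximum
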